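import Pool.Agent.L7h20.NF.Stm

/-!
# Project NF: no leafy sets (CIRC)
-/

set_option autoImplicit false

open Set Filter Topology Metric Function
open scoped Manifold ContDiff

noncomputable section

namespace Pool.Agent.L7h81.NF

open Pool.Agent.Y522
open Pool.Agent.L7h20.NF

variable {m : ℕ} {X : Type} [TopologicalSpace X] [ChartedSpace (E (m + 1)) X]

/-- the value of `P ∘ F` in a box -/
lemma val_box {F : X → E (m + 1)} {P : E (m + 1) →L[ℝ] E m} {A : E (m + 1) → X}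
    {L : E (m + 1) ≃L[ℝ] E (m + 1)} {b : E m} (hB : Bx F P A L b) :
    ∃ c : ℝ, 0 < c ∧ ∀ z ∈ box m 1 1, P (F (A z)) = c • (tl z + b) := by
  obtain ⟨c, hc, h⟩ := hB.par
  refine ⟨c⁻¹, inv_pos.2 hc, fun z hz => ?_⟩
  rw [← hB.tail z hz, h, smul_smul, inv_mul_cancel₀ hc.ne', one_smul]

lemma sub_box [IsManifold (𝓡 (m + 1)) ∞ X] {F : X → E (m + 1)} (hF : Sm F)
    {P : E (m + 1) →L[ℝ] E m} {A : E (m + 1) → X}
    {L : E (m + 1) ≃L[ℝ] E (m + 1)} {b : E m} (hB : Bx F P A L b) {z : E (m + 1)}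
    (h1 : ‖tl z‖ < 1) (h2 : |z 0| < 1) : Sub P F (A z) := by
  obtain ⟨c, hc, hv⟩ := val_box hB
  have hz : z ∈ box m 1 1 := ⟨h1.le, h2.le⟩
  have hP : ContMDiff (𝓡 (m + 1)) (𝓡 m) ∞ (fun y => P (F y)) := P.contMDiff.comp hF
  have e1 : HasMFDerivAt (𝓡 (m + 1)) (𝓡 m) (fun y => P (F y)) (A z)
      (mfderiv (𝓡 (m + 1)) (𝓡 m) (fun y => P (F y)) (A z)) :=
    ((hP _).mdifferentiableAt (by simp)).hasMFDerivAt
  have e2 : HasMFDerivAt (𝓡 (m + 1)) (𝓡 (m + 1)) A z (mfderiv (𝓡 (m + 1)) (𝓡 (m + 1)) A z) :=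
    ((hB.ld z hz).contMDiffAt.mdifferentiableAt (by simp)).hasMFDerivAt
  have e3 := e1.comp z e2
  have e4 : HasMFDerivAt (𝓡 (m + 1)) (𝓡 m) ((fun y => P (F y)) ∘ A) z
      ((c • (tl : E (m + 1) →L[ℝ] E m)) : E (m + 1) →L[ℝ] E m) := by
    have h3 : HasFDerivAt (fun w : E (m + 1) => c • (tl w + b)) (c • (tl : E (m + 1) →L[ℝ] E m)) z :=
      ((tl : E (m + 1) →L[ℝ] E m).hasFDerivAt.add_const b).const_smul c
    refine h3.hasMFDerivAt.congr_of_eventuallyEq ?_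
    filter_upwards [(Pool.Agent.Y870.SH.open_small_box (m := m) 1).mem_nhds ⟨h1, h2⟩] with w hw
    exact hv w ⟨hw.1.le, hw.2.le⟩
  have e5 := hasMFDerivAt_unique e3 e4
  have e7 : ∀ y : E m, (c • (tl : E (m + 1) →L[ℝ] E m)) (cn 0 (c⁻¹ • y)) = y := fun y => by
    change c • tl (cn 0 (c⁻¹ • y)) = y
    rw [tl_cn, smul_smul, mul_inv_cancel₀ hc.ne', one_smul]
  intro y
  refine ⟨mfderiv (𝓡 (m + 1)) (𝓡 (m + 1)) A z (cn 0 (c⁻¹ • (show E m from y))), ?_⟩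
  have e6 := congrArg (fun T : E (m + 1) →L[ℝ] E m => T (cn 0 (c⁻¹ • (show E m from y)))) e5
  exact e6.trans (e7 y)

lemma smul_e0_mem {t : ℝ} (ht : |t| ≤ 1) : t • (e0 : E (m + 1)) ∈ box m 1 1 := by
  have h1 : tl (t • (e0 : E (m + 1))) = 0 := by rw [map_smul, e0, tl_cn, smul_zero]
  refine ⟨by rw [h1, norm_zero]; norm_num, ?_⟩
  simpa [e0] using ht

lemma tl_smul_e0 (t : ℝ) : tl (t • (e0 : E (m + 1))) = (0 : E m) := by
  rw [map_smul, e0, tl_cn, smul_zero]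

lemma eq_smul_e0 {z : E (m + 1)} (h : tl z = 0) : z = z 0 • e0 := by
  conv_lhs => rw [← cn_tl z, h, cn_eq]
  have : (cn 0 0 : E (m + 1)) = 0 := by
    have := (inc : E m →L[ℝ] E (m + 1)).map_zero
    rwa [inc_apply] at this
  rw [this, add_zero]

theorem s_CIRC (hMAX : S_MAX) (hBOX : S_BOX) : S_CIRC := by
  intro m X _ _ _ _ F P K hF hK hsub
  by_contra hne
  obtain ⟨q, hq⟩ := nonempty_iff_ne_empty.2 hne
  obtain ⟨c, hc⟩ := hK.const
  have hFc : Continuous F := hF.smooth.continuous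
  have hPF : Continuous fun x => P (F x) := P.continuous.comp hFc
  have : LocallyCompactSpace X := ChartedSpace.locallyCompactSpace (E (m + 1)) X
  -- the union of the boxes
  obtain ⟨U, hU⟩ : ∃ U : Set X, U = {x | ∃ (A : E (m + 1) → X) (L : E (m + 1) ≃L[ℝ] E (m + 1)) (b : E m),
      Bx F P A L b ∧ (∀ t : ℝ, |t| ≤ 1 → A (t • e0) ∈ K) ∧
        ∃ z : E (m + 1), (‖tl z‖ < 1 ∧ |z 0| < 1) ∧ A z = x} := ⟨_, rfl⟩
  have hUo : IsOpen U := by
    rw [isOpen_iff_mem_nhds]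
    intro x hx
    rw [hU] at hx
    obtain ⟨A, L, b, hB, hl, z, hz, rfl⟩ := hx
    have h1 : IsOpen (A '' {z : E (m + 1) | ‖tl z‖ < 1 ∧ |z 0| < 1}) :=
      isOpen_image_of_LD (Pool.Agent.Y870.SH.open_small_box 1) fun w hw => hB.ld w ⟨hw.1.le, hw.2.le⟩
    refine mem_of_superset (h1.mem_nhds ⟨z, hz, rfl⟩) ?_
    rintro _ ⟨w, hw, rfl⟩
    rw [hU]
    exact ⟨A, L, b, hB, hl, w, hw, rfl⟩
  have hKU : K ⊆ U := by
    intro x hx
    obtain ⟨A, L, b, h1, h2, -, h3⟩ := hK.leaf x hx univ univ_mem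
    rw [hU]
    exact ⟨A, L, b, h2, h3, 0, by simp, h1⟩
  have hUK : ∀ x ∈ U, P (F x) = c → x ∈ K := by
    intro x hx hxc
    rw [hU] at hx
    obtain ⟨A, L, b, hB, hl, z, hz, rfl⟩ := hx
    obtain ⟨k, hk, hv⟩ := val_box hB
    have h0 : P (F (A ((0 : ℝ) • e0))) = c := hc _ (hl 0 (by simp))
    rw [hv _ (smul_e0_mem (by simp)), tl_smul_e0, zero_add] at h0
    rw [hv z ⟨hz.1.le, hz.2.le⟩, ← h0] at hxc
    have h1 := smul_right_injective (E m) hk.ne' hxc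
    have h2 : tl z = 0 := by simpa using h1
    rw [eq_smul_e0 h2]
    exact hl _ hz.2.le
  have hUs : ∀ x ∈ U, Sub P F x := by
    intro x hx
    rw [hU] at hx
    obtain ⟨A, L, b, hB, hl, z, hz, rfl⟩ := hx
    exact sub_box hF.smooth hB hz.1 hz.2
  obtain ⟨W, hWo, hKW, hWU, hWc⟩ := exists_open_between_and_isCompact_closure hK.cpt hUo hKU
  -- the values on the frontier
  obtain ⟨N, hN⟩ : ∃ N : Set (E m), N = ((fun x => P (F x)) '' (closure W \ W))ᶜ := ⟨_, rfl⟩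
  have hNo : IsOpen N := by
    rw [hN]
    exact ((hWc.diff hWo).image hPF).isClosed.isOpen_compl
  have hcN : c ∈ N := by
    rw [hN]
    rintro ⟨x, hx, hxc⟩
    exact hx.2 (hKW (hUK x (hWU hx.1) hxc))
  -- a regular point
  obtain ⟨q₀, hq₀, hreg⟩ : ∃ q₀, q₀ ∈ W ∩ (fun x => P (F x)) ⁻¹' N ∧ LD (m + 1) F q₀ := by
    obtain ⟨x, hx1, hx2⟩ := hF.dense.inter_open_nonempty (W ∩ (fun x => P (F x)) ⁻¹' N)
      (hWo.inter (hNo.preimage hPF)) ⟨q, hKW hq, by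
        change P (F q) ∈ N
        rw [hc q hq]
        exact hcN⟩
    exact ⟨x, hx1, hx2⟩
  -- the leafy set
  have hK'W : ∀ x ∈ closure W, P (F x) = P (F q₀) → x ∈ W := by
    intro x hx hxq
    by_contra hxW
    have h1 := hq₀.2
    change P (F q₀) ∈ N at h1
    rw [hN] at h1
    exact h1 ⟨x, ⟨hx, hxW⟩, hxq⟩
  have hleafy : Leafy F P {x | x ∈ closure W ∧ P (F x) = P (F q₀)} := by
    refine ⟨?_, ⟨P (F q₀), fun x hx => hx.2⟩, fun x hx V hV => ?_⟩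
    · exact hWc.inter_right (isClosed_eq hPF continuous_const)
    · have hxW := hK'W x hx.1 hx.2
      obtain ⟨A, L, b, h1, h2, h3⟩ := hBOX m X F hF P x (hUs x (hWU hx.1)) (V ∩ W)
        (inter_mem hV (hWo.mem_nhds hxW))
      refine ⟨A, L, b, h1, h2, fun z hz => (h3 z hz).1, fun t ht => ⟨subset_closure (h3 _ (smul_e0_mem ht)).2, ?_⟩⟩
      obtain ⟨k, hk, hv⟩ := val_box h2
      have h4 : P (F (A 0)) = P (F q₀) := by rw [h1]; exact hx.2
      rw [← h4, hv _ (smul_e0_mem ht), hv 0 (by simp [box]), tl_smul_e0, map_zero]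
  exact hMAX m X F P _ q₀ hF hleafy ⟨subset_closure hq₀.1, rfl⟩ hreg

end Pool.Agent.L7h81.NF
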