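import Pool.Agent.L7h20.NF.Stm

/-!
# Project NF: the function of one variable
-/

set_option autoImplicit false

open Set Filter Topology Function
open scoped ContDiff

namespace Pool.Agent.L7h81.NF

open Pool.Agent.L7h20.NF

lemma deriv_T_zero {y : ℝ} (h : y < 0 ∨ 1 < y) : deriv Real.smoothTransition y = 0 := by
  rcases h with h | h
  · have : Real.smoothTransition =ᶠ[𝓝 y] fun _ => (0 : ℝ) := by
      filter_upwards [Iio_mem_nhds h] with z hz
      exact Real.smoothTransition.zero_of_nonpos (le_of_lt hz)
    rw [this.deriv_eq, deriv_const]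
  · have : Real.smoothTransition =ᶠ[𝓝 y] fun _ => (1 : ℝ) := by
      filter_upwards [Ioi_mem_nhds h] with z hz
      exact Real.smoothTransition.one_of_one_le (le_of_lt hz)
    rw [this.deriv_eq, deriv_const]

theorem s_ONED : S_ONED := by
  intro t s ht ht1 hs
  have hTc : ContDiff ℝ ∞ Real.smoothTransition := Real.smoothTransition.contDiff
  have hTd : Differentiable ℝ Real.smoothTransition := hTc.differentiable (by simp)
  obtain ⟨x₀, hx₀, hd⟩ := exists_deriv_eq_slope Real.smoothTransition zero_lt_one
    hTc.continuous.continuousOn hTd.differentiableOn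
  have hd1 : deriv Real.smoothTransition x₀ = 1 := by
    rw [hd, Real.smoothTransition.one, Real.smoothTransition.zero]
    norm_num
  have hmono : ∀ y, 0 ≤ deriv Real.smoothTransition y := fun y =>
    Real.smoothTransition.monotone.deriv_nonneg
  have ht0 : 0 < |t| := abs_pos.2 ht
  obtain ⟨q, hq⟩ : ∃ q, q = min s (min |t| ((1 - |t|) / 2)) := ⟨_, rfl⟩
  have hq0 : 0 < q := by
    rw [hq]
    exact lt_min hs (lt_min ht0 (by linarith))
  have hqs : q ≤ s := by rw [hq]; exact min_le_left _ _
  have hqt : q ≤ |t| := by rw [hq]; exact (min_le_right _ _).trans (min_le_left _ _)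
  have hq1 : q ≤ (1 - |t|) / 2 := by rw [hq]; exact (min_le_right _ _).trans (min_le_right _ _)
  have hD : ∀ a u : ℝ, HasDerivAt (fun u => Real.smoothTransition (x₀ + (u - a) / q))
      (deriv Real.smoothTransition (x₀ + (u - a) / q) * (1 / q)) u := by
    intro a u
    have h1 : HasDerivAt (fun u => x₀ + (u - a) / q) (1 / q) u :=
      (((hasDerivAt_id u).sub_const a).div_const q).const_add x₀
    exact (hTd _).hasDerivAt.comp u h1
  have hC : ∀ a : ℝ, ContDiff ℝ ∞ (fun u => Real.smoothTransition (x₀ + (u - a) / q)) := fun a =>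
    hTc.comp (contDiff_const.add ((contDiff_id.sub contDiff_const).div_const q))
  have hz : ∀ a u : ℝ, q ≤ |u - a| → deriv Real.smoothTransition (x₀ + (u - a) / q) = 0 := by
    intro a u h
    apply deriv_T_zero
    rcases le_total 0 (u - a) with h1 | h1
    · right
      rw [abs_of_nonneg h1] at h
      have : 1 ≤ (u - a) / q := (one_le_div hq0).2 h
      linarith [hx₀.1]
    · left
      rw [abs_of_nonpos h1] at h
      have : 1 ≤ (-(u - a)) / q := (one_le_div hq0).2 h
      rw [neg_div] at this
      linarith [hx₀.2]
  have hg : ∀ u, HasDerivAt (fun u => Real.smoothTransition (x₀ + (u - 0) / q) -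
      Real.smoothTransition (x₀ + (u - t) / q))
      (deriv Real.smoothTransition (x₀ + (u - 0) / q) * (1 / q) -
        deriv Real.smoothTransition (x₀ + (u - t) / q) * (1 / q)) u := fun u =>
    (hD 0 u).sub (hD t u)
  have hq' : 0 < 1 / q := by positivity
  refine ⟨fun u => Real.smoothTransition (x₀ + (u - 0) / q) - Real.smoothTransition (x₀ + (u - t) / q),
    |t| + q, (hC 0).sub (hC t), by positivity, by linarith, ?_, fun u hu => ?_, fun u hu => ?_⟩
  · rw [(hg 0).deriv, hz t 0 (by rw [zero_sub, abs_neg]; exact hqt)]
    simp only [sub_zero, zero_div, add_zero, hd1, zero_mul, one_mul]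
    exact hq'
  · rw [(hg u).deriv, hz t u (hqs.trans hu), zero_mul, sub_zero]
    exact mul_nonneg (hmono _) hq'.le
  · rcases le_total 0 u with h1 | h1
    · rw [abs_of_nonneg h1] at hu
      have e1 : 1 ≤ (u - 0) / q := by
        rw [one_le_div hq0]
        linarith
      have e2 : 1 ≤ (u - t) / q := by
        rw [one_le_div hq0]
        linarith [le_abs_self t]
      simp only
      rw [Real.smoothTransition.one_of_one_le (by linarith [hx₀.1]),
        Real.smoothTransition.one_of_one_le (by linarith [hx₀.1]), sub_self]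
    · rw [abs_of_nonpos h1] at hu
      have e1 : (u - 0) / q ≤ -1 := by
        rw [div_le_iff₀ hq0]
        linarith
      have e2 : (u - t) / q ≤ -1 := by
        rw [div_le_iff₀ hq0]
        linarith [neg_abs_le t]
      simp only
      rw [Real.smoothTransition.zero_of_nonpos (by linarith [hx₀.2]),
        Real.smoothTransition.zero_of_nonpos (by linarith [hx₀.2]), sub_self]

end Pool.Agent.L7h81.NF
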